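import Pool.Agent.H98.RFT.Targets3

/-!
Rows CNT, LOQ, EXP of the board rft_modules.
-/

set_option autoImplicit false

open MeasureTheory ProbabilityTheory Filter Topology

namespace Pool.Agent.H50.RFT

open Pool.Agent.H98.RFC Pool.Agent.H98.RFZ Pool.Agent.H98.RFT

theorem cont_wt (R : ℕ) (J : Site → ℝ) (T : ℝ) (W : Finset Site) (B : Set Site)
    (S : Finset Site) : Continuous (fun h : Site → ℝ => wt R J h T W B S) := by
  unfold wt en
  fun_prop

theorem zf_pos (R : ℕ) (J h : Site → ℝ) (T : ℝ) (W : Finset Site) (B : Set Site) :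
    0 < Zf R J h T W B := by
  unfold Zf
  refine Finset.sum_pos (fun S _ => ?_) ⟨∅, Finset.empty_mem_powerset _⟩
  unfold wt
  exact Real.exp_pos _

theorem cont_zf (R : ℕ) (J : Site → ℝ) (T : ℝ) (W : Finset Site) (B : Set Site) :
    Continuous (fun h : Site → ℝ => Zf R J h T W B) := by
  unfold Zf
  exact continuous_finsetSum _ fun S _ => cont_wt R J T W B S

theorem cont_mg (R : ℕ) (J : Site → ℝ) (T : ℝ) (W : Finset Site) (B : Set Site) (x : Site) :
    Continuous (fun h : Site → ℝ => mg R J h T W B x) := by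
  unfold mg
  refine Continuous.div ?_ (cont_zf R J T W B) (fun h => (zf_pos R J h T W B).ne')
  exact continuous_finsetSum _ fun S _ => (cont_wt R J T W B S).mul continuous_const

theorem pf_CNT : D_CNT := by
  intro R J T _ W
  have h1 : ∀ F : Finset Site → Finset Site → Finset (Site × Site) → ℝ,
      Continuous (fun h : Site → ℝ => Qe R J h T W F) := by
    intro F
    unfold Qe Qg
    refine Continuous.div ?_ ((cont_zf R J T W _).mul (cont_zf R J T W _))
      (fun h => (mul_pos (zf_pos R J h T W _) (zf_pos R J h T W _)).ne')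
    refine continuous_finsetSum _ fun S _ => continuous_finsetSum _ fun S' _ =>
      continuous_finsetSum _ fun ω _ => ?_
    exact (((cont_wt R J T W _ S).mul (cont_wt R J T W _ S')).mul continuous_const).mul
      continuous_const
  refine ⟨h1, fun A => ?_, fun x => ?_⟩
  · unfold QP Qd
    exact h1 _
  · unfold inf1
    exact ((cont_mg R J T W _ x).sub (cont_mg R J T W _ x)).div_const 2

theorem pf_LOQ : D_LOQ := by
  intro R J h h' T W hh
  have h1 : ∀ (B : Set Site) (S : Finset Site), wt R J h T W B S = wt R J h' T W B S := by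
    intro B S
    unfold wt en
    have : ∑ x ∈ W, h x * sg (↑S ∪ B) x = ∑ x ∈ W, h' x * sg (↑S ∪ B) x :=
      Finset.sum_congr rfl fun x hx => by rw [hh x hx]
    rw [this]
  have h2 : ∀ B : Set Site, Zf R J h T W B = Zf R J h' T W B := by
    intro B
    unfold Zf
    exact Finset.sum_congr rfl fun S _ => h1 B S
  have h3 : ∀ F : Finset Site → Finset Site → Finset (Site × Site) → ℝ,
      Qe R J h T W F = Qe R J h' T W F := by
    intro F
    unfold Qe Qg
    simp only [h1, h2]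
  refine ⟨h3, fun A => ?_, fun x => ?_⟩
  · unfold QP Qd
    exact h3 _
  · unfold inf1 mg
    simp only [h1, h2]

theorem bw_union {P E ω₁ ω₂ : Finset (Site × Site)} {q : Site × Site → ℝ} (hE : E ⊆ P)
    (h1 : ω₁ ⊆ P \ E) (h2 : ω₂ ⊆ E) : bw P q (ω₁ ∪ ω₂) = bw (P \ E) q ω₁ * bw E q ω₂ := by
  unfold bw
  have hd1 : Disjoint ω₁ ω₂ := by
    rw [Finset.disjoint_left]
    intro e he he'
    exact (Finset.mem_sdiff.1 (h1 he)).2 (h2 he')
  have e1 : P \ (ω₁ ∪ ω₂) = ((P \ E) \ ω₁) ∪ (E \ ω₂) := by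
    ext e
    simp only [Finset.mem_sdiff, Finset.mem_union]
    constructor
    · rintro ⟨a, b⟩
      push Not at b
      by_cases hc : e ∈ E
      · exact Or.inr ⟨hc, b.2⟩
      · exact Or.inl ⟨⟨a, hc⟩, b.1⟩
    · rintro (⟨⟨a, b⟩, c⟩ | ⟨a, b⟩)
      · refine ⟨a, ?_⟩
        rintro (h | h)
        · exact c h
        · exact b (h2 h)
      · refine ⟨hE a, ?_⟩
        rintro (h | h)
        · exact (Finset.mem_sdiff.1 (h1 h)).2 a
        · exact b h
  have hd2 : Disjoint ((P \ E) \ ω₁) (E \ ω₂) := by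
    rw [Finset.disjoint_left]
    intro e he he'
    rw [Finset.mem_sdiff, Finset.mem_sdiff] at he
    exact he.1.2 (Finset.mem_sdiff.1 he').1
  rw [Finset.prod_union hd1, e1, Finset.prod_union hd2]
  ring

theorem bw_sum (E : Finset (Site × Site)) (q : Site × Site → ℝ) :
    ∑ ω ∈ E.powerset, bw E q ω = 1 := by
  unfold bw
  rw [← Finset.prod_add]
  refine Finset.prod_eq_one fun e _ => ?_
  ring

/-- the sum over a class which is stable under changes of the edges of `E` -/
theorem class_sum (P E : Finset (Site × Site)) (hE : E ⊆ P)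
    (C : Finset (Site × Site) → Prop) [DecidablePred C]
    (hC : ∀ ω ω', ω ⊆ P → ω' ⊆ P → ω \ E = ω' \ E → C ω → C ω')
    (Φ : Finset (Site × Site) → ℝ) :
    ∑ ω ∈ P.powerset.filter C, Φ ω =
      ∑ ω₁ ∈ (P \ E).powerset.filter C, ∑ ω₂ ∈ E.powerset, Φ (ω₁ ∪ ω₂) := by
  rw [← Finset.sum_product']
  refine Finset.sum_bij' (fun ω _ => (ω \ E, ω ∩ E)) (fun p _ => p.1 ∪ p.2) ?_ ?_ ?_ ?_ ?_
  · intro ω hω
    rw [Finset.mem_filter, Finset.mem_powerset] at hω
    rw [Finset.mem_product, Finset.mem_filter, Finset.mem_powerset, Finset.mem_powerset]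
    have h1 : ω \ E ⊆ P \ E := Finset.sdiff_subset_sdiff hω.1 (Finset.Subset.refl _)
    refine ⟨⟨h1, ?_⟩, Finset.inter_subset_right⟩
    refine hC ω (ω \ E) hω.1 (Finset.sdiff_subset.trans hω.1) ?_ hω.2
    ext e
    simp only [Finset.mem_sdiff]
    tauto
  · rintro ⟨ω₁, ω₂⟩ hp
    rw [Finset.mem_product, Finset.mem_filter, Finset.mem_powerset, Finset.mem_powerset] at hp
    obtain ⟨⟨h1, h2⟩, h3⟩ := hp
    rw [Finset.mem_filter, Finset.mem_powerset]
    have h4 : ω₁ ⊆ P := h1.trans Finset.sdiff_subset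
    have h5 : ω₁ ∪ ω₂ ⊆ P := Finset.union_subset h4 (h3.trans hE)
    refine ⟨h5, hC ω₁ (ω₁ ∪ ω₂) h4 h5 ?_ h2⟩
    ext e
    simp only [Finset.mem_sdiff, Finset.mem_union]
    constructor
    · rintro ⟨a, b⟩
      exact ⟨Or.inl a, b⟩
    · rintro ⟨a | a, b⟩
      · exact ⟨a, b⟩
      · exact absurd (h3 a) b
  · intro ω _
    simp only []
    exact Finset.sdiff_union_inter ω E
  · rintro ⟨ω₁, ω₂⟩ hp
    rw [Finset.mem_product, Finset.mem_filter, Finset.mem_powerset, Finset.mem_powerset] at hp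
    obtain ⟨⟨h1, h2⟩, h3⟩ := hp
    have h6 : ∀ e ∈ ω₁, e ∉ E := fun e he => (Finset.mem_sdiff.1 (h1 he)).2
    refine Prod.ext ?_ ?_
    · ext e
      simp only [Finset.mem_sdiff, Finset.mem_union]
      constructor
      · rintro ⟨a | a, b⟩
        · exact a
        · exact absurd (h3 a) b
      · intro a
        exact ⟨Or.inl a, h6 e a⟩
    · ext e
      simp only [Finset.mem_inter, Finset.mem_union]
      constructor
      · rintro ⟨a | a, b⟩
        · exact absurd b (h6 e a)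
        · exact a
      · intro a
        exact ⟨Or.inr a, h3 a⟩
  · intro ω _
    simp only []
    rw [Finset.sdiff_union_inter]

theorem pf_EXP : D_EXP := by
  intro ι _ P q f E hE hf g
  have hmaps : ∀ ω ∈ P.powerset, f ω ∈ P.powerset.image f := fun ω hω =>
    Finset.mem_image_of_mem f hω
  rw [← Finset.sum_fiberwise_of_maps_to hmaps, ← Finset.sum_fiberwise_of_maps_to hmaps]
  refine Finset.sum_congr rfl fun i _ => ?_
  have hC : ∀ ω ω', ω ⊆ P → ω' ⊆ P → ω \ E i = ω' \ E i → f ω = i → f ω' = i := by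
    intro ω ω' h1 h2 h3 h4
    have := hf ω ω' h1 h2 (by rw [h4]; exact h3)
    rw [this, h4]
  have e1 : ∑ ω ∈ P.powerset with f ω = i, bw P q ω * (g (f ω) * ind (ω ∩ E (f ω) = ∅)) =
      ∑ ω ∈ P.powerset with f ω = i, bw P q ω * (g i * ind (ω ∩ E i = ∅)) := by
    refine Finset.sum_congr rfl fun ω hω => ?_
    rw [(Finset.mem_filter.1 hω).2]
  have e2 : ∑ ω ∈ P.powerset with f ω = i, bw P q ω * (g (f ω) * ∏ e ∈ E (f ω), q e) =
      ∑ ω ∈ P.powerset with f ω = i, bw P q ω * (g i * ∏ e ∈ E i, q e) := by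
    refine Finset.sum_congr rfl fun ω hω => ?_
    rw [(Finset.mem_filter.1 hω).2]
  rw [e1, e2, class_sum P (E i) (hE i) (fun ω => f ω = i) hC,
    class_sum P (E i) (hE i) (fun ω => f ω = i) hC]
  refine Finset.sum_congr rfl fun ω₁ hω₁ => ?_
  have h1 : ω₁ ⊆ P \ E i := Finset.mem_powerset.1 (Finset.mem_filter.1 hω₁).1
  have hb : ∀ ω₂ ∈ (E i).powerset, bw P q (ω₁ ∪ ω₂) = bw (P \ E i) q ω₁ * bw (E i) q ω₂ :=
    fun ω₂ h2 => bw_union (hE i) h1 (Finset.mem_powerset.1 h2)
  have hint : ∀ ω₂ ∈ (E i).powerset, (ω₁ ∪ ω₂) ∩ E i = ω₂ := by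
    intro ω₂ h2
    rw [Finset.mem_powerset] at h2
    ext e
    simp only [Finset.mem_inter, Finset.mem_union]
    constructor
    · rintro ⟨a | a, b⟩
      · exact absurd b (Finset.mem_sdiff.1 (h1 a)).2
      · exact a
    · intro a
      exact ⟨Or.inr a, h2 a⟩
  have l1 : ∑ ω₂ ∈ (E i).powerset, bw P q (ω₁ ∪ ω₂) * (g i * ind ((ω₁ ∪ ω₂) ∩ E i = ∅)) =
      bw (P \ E i) q ω₁ * (g i * ∏ e ∈ E i, q e) := by
    rw [Finset.sum_eq_single ∅]
    · rw [hb ∅ (Finset.empty_mem_powerset _), hint ∅ (Finset.empty_mem_powerset _)]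
      unfold ind
      rw [if_pos rfl]
      have : bw (E i) q ∅ = ∏ e ∈ E i, q e := by
        unfold bw
        rw [Finset.prod_empty, one_mul, Finset.sdiff_empty]
      rw [this]
      ring
    · intro ω₂ h2 hne
      rw [hint ω₂ h2]
      unfold ind
      rw [if_neg hne]
      ring
    · intro h
      exact absurd (Finset.empty_mem_powerset _) h
  have l2 : ∑ ω₂ ∈ (E i).powerset, bw P q (ω₁ ∪ ω₂) * (g i * ∏ e ∈ E i, q e) =
      bw (P \ E i) q ω₁ * (g i * ∏ e ∈ E i, q e) := by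
    rw [← Finset.sum_mul]
    have : ∑ ω₂ ∈ (E i).powerset, bw P q (ω₁ ∪ ω₂) = bw (P \ E i) q ω₁ := by
      rw [Finset.sum_congr rfl hb, ← Finset.mul_sum, bw_sum, mul_one]
    rw [this]
  rw [l1, l2]

end Pool.Agent.H50.RFT
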