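import Pool.Agent.H98.RFT.Targets3
import Pool.Agent.H98.RFC.Targets

/-!
Row INF of the board rft_modules: the influence is a connection probability.
-/

set_option autoImplicit false

open MeasureTheory ProbabilityTheory Filter Topology

namespace Pool.Agent.H50.RFT

open Pool.Agent.H98.RFC Pool.Agent.H98.RFZ Pool.Agent.H98.RFT

theorem inf_zf_pos (R : ℕ) (J h : Site → ℝ) (T : ℝ) (W : Finset Site) (B : Set Site) :
    0 < Zf R J h T W B := by
  unfold Zf
  refine Finset.sum_pos (fun S _ => ?_) ⟨∅, Finset.empty_mem_powerset _⟩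
  unfold wt
  exact Real.exp_pos _

theorem self_mem_hull {R : ℕ} {Λ : Finset Site} {z : Site} (hz : z ∈ Λ) : z ∈ hull R Λ := by
  unfold hull bx
  rw [Finset.mem_biUnion]
  refine ⟨z, hz, ?_⟩
  rw [Finset.mem_product, Finset.mem_Icc, Finset.mem_Icc]
  omega

theorem mem_prs_iff {R : ℕ} {W : Finset Site} {a b : Site} :
    (a, b) ∈ prs R W ↔ (a ∈ W ∨ b ∈ W) ∧ b - a ∈ box R := by
  unfold prs
  rw [Finset.mem_filter, Finset.mem_product]
  constructor
  · rintro ⟨-, h⟩
    exact h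
  · rintro ⟨h1, h2⟩
    have h3 : (-(R : ℤ) ≤ b.1 - a.1 ∧ b.1 - a.1 ≤ R) ∧
        (-(R : ℤ) ≤ b.2 - a.2 ∧ b.2 - a.2 ≤ R) := by
      have h4 := h2
      unfold box at h4
      rw [Finset.mem_product, Finset.mem_Icc, Finset.mem_Icc, Prod.fst_sub, Prod.snd_sub] at h4
      exact h4
    refine ⟨?_, h1, h2⟩
    rcases h1 with h1 | h1
    · refine ⟨self_mem_hull h1, ?_⟩
      unfold hull bx
      rw [Finset.mem_biUnion]
      refine ⟨a, h1, ?_⟩
      rw [Finset.mem_product, Finset.mem_Icc, Finset.mem_Icc]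
      simp only
      omega
    · refine ⟨?_, self_mem_hull h1⟩
      unfold hull bx
      rw [Finset.mem_biUnion]
      refine ⟨b, h1, ?_⟩
      rw [Finset.mem_product, Finset.mem_Icc, Finset.mem_Icc]
      simp only
      omega

theorem box_neg {R : ℕ} {a b : Site} (h : b - a ∈ box R) : a - b ∈ box R := by
  unfold box at h ⊢
  rw [Finset.mem_product, Finset.mem_Icc, Finset.mem_Icc, Prod.fst_sub, Prod.snd_sub] at h ⊢
  omega

/-- stop at the first exit -/
theorem conn_sub {D : Set Site} {W Λ : Finset Site} {ω : Finset (Site × Site)} {x : Site}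
    (hW : W ⊆ Λ) (hx : x ∈ W) (h : conn D Λ ω x) : conn D W ω x := by
  obtain ⟨y, hy, hr⟩ := h
  have hy' : y ∉ W := fun h => hy (hW h)
  clear hy
  induction hr using Relation.ReflTransGen.head_induction_on with
  | refl => exact absurd hx hy'
  | @head a b hab _ ih =>
    by_cases hb : b ∈ W
    · obtain ⟨y', hy1, hr'⟩ := ih hb
      exact ⟨y', hy1, Relation.ReflTransGen.head ⟨hx, hab.2⟩ hr'⟩
    · exact ⟨b, hb, Relation.ReflTransGen.single ⟨hx, hab.2⟩⟩

theorem conn_mono {D D' : Set Site} {W : Finset Site} {ω ω' : Finset (Site × Site)} {x : Site}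
    (hD : D ⊆ D') (hω : ∀ a b, a ∈ W → opn ω a b → opn ω' a b) (h : conn D W ω x) :
    conn D' W ω' x := by
  obtain ⟨y, hy, hr⟩ := h
  refine ⟨y, hy, Relation.ReflTransGen.mono (fun a b h => ?_) _ _ hr⟩
  exact ⟨h.1, hD h.2.1, hD h.2.2.1, hω a b h.1 h.2.2.2⟩

/-- a path which leaves `B` -/
theorem cv_conn {D : Set Site} {B V : Finset Site} {ω : Finset (Site × Site)} {x : Site}
    (hx : x ∈ B) (hV : Disjoint V B) (h : Cv V x D ω) : conn D B ω x := by
  obtain ⟨k, u, ⟨h1, h2⟩, h3, h4⟩ := h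
  have key : ∀ j i : ℕ, i + j = k → u i ∈ B → conn D B ω (u i) := by
    intro j
    induction j with
    | zero =>
      intro i hi hB
      have : i = k := by omega
      rw [this] at hB
      exact absurd hB (Finset.disjoint_left.1 hV h4)
    | succ j ih =>
      intro i hi hB
      have hs : u i ∈ D ∧ u (i + 1) ∈ D ∧ opn ω (u i) (u (i + 1)) :=
        ⟨h1 i (by omega), h1 (i + 1) (by omega), h2 i (by omega)⟩
      by_cases hb : u (i + 1) ∈ B
      · obtain ⟨y, hy, hr⟩ := ih (i + 1) (by omega) hb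
        exact ⟨y, hy, Relation.ReflTransGen.head ⟨hB, hs⟩ hr⟩
      · exact ⟨u (i + 1), hb, Relation.ReflTransGen.single ⟨hB, hs⟩⟩
  have := key k 0 (by omega) (by rw [h3]; exact hx)
  rwa [h3] at this

theorem inf_eq (hREP : T_REP) (R : ℕ) (J : Site → ℝ) (hJ : IsCoupling R J) (h : Site → ℝ) (T : ℝ)
    (hT : 0 < T) (W : Finset Site) (x : Site) (hx : x ∈ W) :
    inf1 R J h T W x = QP R J h T W (fun D ω => conn D W ω x) := by
  have h1 := hREP R J hJ h T hT W x hx
  have hz1 := inf_zf_pos R J h T W (↑W)ᶜ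
  have hz2 := inf_zf_pos R J h T W ∅
  have h2 : QP R J h T W (fun D ω => conn D W ω x) =
      (∑ S ∈ W.powerset, ∑ S' ∈ W.powerset, wt R J h T W (↑W)ᶜ S * wt R J h T W ∅ S' *
      psi (qe J T) (prs R W) ((↑S ∪ (↑W)ᶜ) \ ↑S') W x) /
      (Zf R J h T W (↑W)ᶜ * Zf R J h T W ∅) := by
    unfold QP Qd Qe Qg
    congr 1
    refine Finset.sum_congr rfl fun S _ => Finset.sum_congr rfl fun S' _ => ?_
    unfold psi
    rw [Finset.mul_sum]
    refine Finset.sum_congr rfl fun ω _ => ?_
    unfold ind Dq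
    ring
  rw [h2, h1]
  field_simp

theorem pf_INF (hREP : T_REP) (hNN : T_NN) (hSUB : D_SUB) (hQP : D_QP) : D_INF := by
  intro R J hJ h T hT
  have hA : ∀ (W : Finset Site), ∀ x ∈ W,
      inf1 R J h T W x = QP R J h T W (fun D ω => conn D W ω x) := fun W x hx =>
    inf_eq hREP R J hJ h T hT W x hx
  have hB : ∀ (W Λ : Finset Site), W ⊆ Λ → ∀ x ∈ W,
      QP R J h T Λ (fun D ω => conn D W ω x) ≤ inf1 R J h T W x := by
    intro W Λ hWΛ x hx
    rw [hA W x hx]
    have s1 : QP R J h T Λ (fun D ω => conn D W ω x) ≤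
        QP R J h T Λ (fun D ω => conn D W (ω ∩ prs R W) x) := by
      refine (hQP R J hJ h T hT Λ).2.1 _ _ ?_
      intro D ω _ hω _ hc
      refine conn_mono (Set.Subset.refl D) ?_ hc
      intro a b ha hab
      rcases hab with hab | hab
      · left
        refine Finset.mem_inter.2 ⟨hab, mem_prs_iff.2 ⟨Or.inl ha, ?_⟩⟩
        exact (mem_prs_iff.1 (hω hab)).2
      · right
        refine Finset.mem_inter.2 ⟨hab, mem_prs_iff.2 ⟨Or.inr ha, ?_⟩⟩
        exact (mem_prs_iff.1 (hω hab)).2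
    have s2 : QP R J h T Λ (fun D ω => conn D W (ω ∩ prs R W) x) ≤
        QP R J h T W (fun D ω => conn D W (ω ∩ prs R W) x) := by
      refine hSUB R J hJ h T hT W Λ hWΛ _ ?_ ?_
      · intro D D' ω hD hc
        exact conn_mono hD (fun _ _ _ h => h) hc
      · intro D ω hc
        have : ω ∩ prs R W ∩ prs R W = ω ∩ prs R W := by
          rw [Finset.inter_assoc, Finset.inter_self]
        rw [this]
        exact hc
    have s3 : QP R J h T W (fun D ω => conn D W (ω ∩ prs R W) x) ≤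
        QP R J h T W (fun D ω => conn D W ω x) := by
      refine (hQP R J hJ h T hT W).2.1 _ _ ?_
      intro D ω _ _ _ hc
      refine conn_mono (Set.Subset.refl D) ?_ hc
      intro a b _ hab
      rcases hab with hab | hab
      · exact Or.inl (Finset.mem_inter.1 hab).1
      · exact Or.inr (Finset.mem_inter.1 hab).1
    exact s1.trans (s2.trans s3)
  refine ⟨fun W x hx => ⟨hA W x hx, hNN R J hJ h T hT W x hx⟩, ?_, ?_⟩
  · intro W Λ hWΛ x hx
    refine ⟨hB W Λ hWΛ x hx, ?_⟩
    rw [hA Λ x (hWΛ hx)]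
    refine le_trans ?_ (hB W Λ hWΛ x hx)
    refine (hQP R J hJ h T hT Λ).2.1 _ _ ?_
    intro D ω _ _ _ hc
    exact conn_sub hWΛ hx hc
  · intro B W V hBW hVW x hx
    refine le_trans ?_ (hB B W hBW x hx)
    refine (hQP R J hJ h T hT W).2.1 _ _ ?_
    intro D ω _ _ _ hc
    refine cv_conn hx ?_ hc
    exact Disjoint.mono_right (Finset.coe_subset.1 (by exact_mod_cast hBW)) hVW

end Pool.Agent.H50.RFT
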