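import Pool.Agent.H50.RFT.CNT
import Pool.Agent.H50.RFT.INF

/-!
Rows DOM, SUBD, PRD of the board rft_modules: domination by the double model in a subdomain.
-/

set_option autoImplicit false

open MeasureTheory ProbabilityTheory Filter Topology

namespace Pool.Agent.H50.RFT

open Pool.Agent.H98.RFC Pool.Agent.H98.RFZ Pool.Agent.H98.RFT

theorem wt_pos (R : ℕ) (J h : Site → ℝ) (T : ℝ) (W : Finset Site) (B : Set Site)
    (S : Finset Site) : 0 < wt R J h T W B S := by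
  unfold wt
  exact Real.exp_pos _

theorem bw_nonneg {R : ℕ} {J : Site → ℝ} (hJ : IsCoupling R J) {T : ℝ} (hT : 0 < T)
    (P ω : Finset (Site × Site)) : 0 ≤ bw P (qe J T) ω := by
  unfold bw qe
  refine mul_nonneg (Finset.prod_nonneg fun e _ => ?_)
    (Finset.prod_nonneg fun e _ => (Real.exp_pos _).le)
  have h1 : -(2 * J (e.1 - e.2)) / T ≤ 0 := by
    have := hJ.nonneg (e.1 - e.2)
    exact div_nonpos_of_nonpos_of_nonneg (by linarith) hT.le
  have := Real.exp_le_one_iff.2 h1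
  linarith

theorem prs_mono {R : ℕ} {W Λ : Finset Site} (h : W ⊆ Λ) : prs R W ⊆ prs R Λ := by
  rintro ⟨a, b⟩ hab
  rw [mem_prs_iff] at hab ⊢
  exact ⟨hab.1.imp (fun x => h x) (fun x => h x), hab.2⟩

/-- two applications of the monotonicity in the boundary condition -/
theorem mon2 (hMON : T_MON) (R : ℕ) (J : Site → ℝ) (hJ : IsCoupling R J) (h : Site → ℝ) (T : ℝ)
    (hT : 0 < T) (W : Finset Site) (B₁ B₂ B₁' B₂' : Set Site) (hB : B₁ ⊆ B₂) (hB' : B₂' ⊆ B₁')
    (hd1 : Disjoint B₁ (↑W : Set Site)) (hd2 : Disjoint B₂ (↑W : Set Site))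
    (hd1' : Disjoint B₁' (↑W : Set Site)) (hd2' : Disjoint B₂' (↑W : Set Site))
    (f : Finset Site → Finset Site → ℝ)
    (hf1 : ∀ S S' V, S ⊆ S' → S' ⊆ W → f S V ≤ f S' V)
    (hf2 : ∀ V S S', S ⊆ S' → S' ⊆ W → f V S' ≤ f V S) :
    (∑ S ∈ W.powerset, ∑ S' ∈ W.powerset, wt R J h T W B₁ S * wt R J h T W B₁' S' * f S S') *
      (Zf R J h T W B₂ * Zf R J h T W B₂') ≤
    (Zf R J h T W B₁ * Zf R J h T W B₁') *
      ∑ S ∈ W.powerset, ∑ S' ∈ W.powerset, wt R J h T W B₂ S * wt R J h T W B₂' S' * f S S' := by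
  have z1 : 0 < Zf R J h T W B₁ := zf_pos R J h T W B₁
  have z2' : 0 < Zf R J h T W B₂' := zf_pos R J h T W B₂'
  have s1 : (∑ S ∈ W.powerset, ∑ S' ∈ W.powerset,
      wt R J h T W B₁ S * wt R J h T W B₁' S' * f S S') * Zf R J h T W B₂ ≤
      Zf R J h T W B₁ * ∑ S ∈ W.powerset, ∑ S' ∈ W.powerset,
        wt R J h T W B₂ S * wt R J h T W B₁' S' * f S S' := by
    rw [Finset.sum_comm, Finset.sum_comm (s := W.powerset) (t := W.powerset)
      (f := fun S S' => wt R J h T W B₂ S * wt R J h T W B₁' S' * f S S'), Finset.sum_mul,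
      Finset.mul_sum]
    refine Finset.sum_le_sum fun S' _ => ?_
    have h1 := hMON R J hJ h T hT W B₁ B₂ hB hd1 hd2 (fun S => f S S')
      (fun S V h1 h2 => hf1 S V S' h1 h2)
    have h2 := mul_le_mul_of_nonneg_left h1 (wt_pos R J h T W B₁' S').le
    have e1 : (∑ S ∈ W.powerset, wt R J h T W B₁ S * wt R J h T W B₁' S' * f S S') *
        Zf R J h T W B₂ = wt R J h T W B₁' S' *
        ((∑ S ∈ W.powerset, wt R J h T W B₁ S * f S S') * Zf R J h T W B₂) := by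
      rw [← mul_assoc, Finset.mul_sum]
      congr 1
      exact Finset.sum_congr rfl fun S _ => by ring
    have e2 : Zf R J h T W B₁ * (∑ S ∈ W.powerset,
        wt R J h T W B₂ S * wt R J h T W B₁' S' * f S S') = wt R J h T W B₁' S' *
        (Zf R J h T W B₁ * ∑ S ∈ W.powerset, wt R J h T W B₂ S * f S S') := by
      rw [Finset.mul_sum, Finset.mul_sum, Finset.mul_sum]
      exact Finset.sum_congr rfl fun S _ => by ring
    rw [e1, e2]
    exact h2
  have s2 : Zf R J h T W B₂' * (∑ S ∈ W.powerset, ∑ S' ∈ W.powerset,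
        wt R J h T W B₂ S * wt R J h T W B₁' S' * f S S') ≤
      Zf R J h T W B₁' * ∑ S ∈ W.powerset, ∑ S' ∈ W.powerset,
        wt R J h T W B₂ S * wt R J h T W B₂' S' * f S S' := by
    rw [Finset.mul_sum, Finset.mul_sum]
    refine Finset.sum_le_sum fun S _ => ?_
    have h1 := hMON R J hJ h T hT W B₂' B₁' hB' hd2' hd1' (fun S' => -f S S')
      (fun U V h1 h2 => neg_le_neg (hf2 S U V h1 h2))
    have e3 : ∀ B : Set Site, ∑ S' ∈ W.powerset, wt R J h T W B S' * -f S S' =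
        -∑ S' ∈ W.powerset, wt R J h T W B S' * f S S' := by
      intro B
      rw [← Finset.sum_neg_distrib]
      exact Finset.sum_congr rfl fun S' _ => by ring
    rw [e3, e3] at h1
    have h1' : Zf R J h T W B₂' * (∑ S' ∈ W.powerset, wt R J h T W B₁' S' * f S S') ≤
        Zf R J h T W B₁' * ∑ S' ∈ W.powerset, wt R J h T W B₂' S' * f S S' := by linarith
    have h2 := mul_le_mul_of_nonneg_left h1' (wt_pos R J h T W B₂ S).le
    have e1 : ∀ B : Set Site, ∀ c : ℝ, c * (∑ S' ∈ W.powerset,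
        wt R J h T W B₂ S * wt R J h T W B S' * f S S') = wt R J h T W B₂ S *
        (c * ∑ S' ∈ W.powerset, wt R J h T W B S' * f S S') := by
      intro B c
      rw [Finset.mul_sum, Finset.mul_sum, Finset.mul_sum]
      exact Finset.sum_congr rfl fun S' _ => by ring
    rw [e1, e1]
    exact h2
  have t1 := mul_le_mul_of_nonneg_right s1 z2'.le
  have t2 := mul_le_mul_of_nonneg_left s2 z1.le
  calc _ = (∑ S ∈ W.powerset, ∑ S' ∈ W.powerset,
      wt R J h T W B₁ S * wt R J h T W B₁' S' * f S S') * Zf R J h T W B₂ *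
        Zf R J h T W B₂' := by ring
    _ ≤ _ := t1
    _ = Zf R J h T W B₁ * (Zf R J h T W B₂' * ∑ S ∈ W.powerset, ∑ S' ∈ W.powerset,
        wt R J h T W B₂ S * wt R J h T W B₁' S' * f S S') := by ring
    _ ≤ _ := t2
    _ = _ := by ring

/-- the outer factor of the weight -/
noncomputable def rho (R : ℕ) (J h : Site → ℝ) (T : ℝ) (W Λ : Finset Site) (A : Set Site) : ℝ :=
  Real.exp (-(en R J h Λ A - en R J h W A) / T)

theorem wt_split (hDM : T_DM) (R : ℕ) (J h : Site → ℝ) (T : ℝ) (W Λ : Finset Site) (hW : W ⊆ Λ)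
    (B : Set Site) (So Si : Finset Site) (hSi : Si ⊆ W) :
    wt R J h T Λ B (So ∪ Si) = rho R J h T W Λ (↑So ∪ B) * wt R J h T W (↑So ∪ B) Si := by
  unfold wt rho
  rw [← Real.exp_add]
  have h1 := hDM R J h W Λ hW (↑(So ∪ Si) ∪ B) (↑So ∪ B) (by
    ext z
    simp only [Finset.coe_union, Set.mem_sdiff, Set.mem_union, Finset.mem_coe]
    constructor
    · rintro ⟨(h | h) | h, hz⟩
      · exact ⟨Or.inl h, hz⟩
      · exact absurd (hSi h) hz
      · exact ⟨Or.inr h, hz⟩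
    · rintro ⟨h | h, hz⟩
      · exact ⟨Or.inl (Or.inl h), hz⟩
      · exact ⟨Or.inr h, hz⟩)
  have h2 : (↑Si ∪ (↑So ∪ B) : Set Site) = ↑(So ∪ Si) ∪ B := by
    rw [Finset.coe_union]
    ext z
    simp only [Set.mem_union]
    tauto
  rw [h2]
  congr 1
  rw [← add_div]
  congr 1
  linarith

/-- the numerator of the expectation, split in the inside and the outside -/
theorem num_split (hPS : T_PS) (hDM : T_DM) (R : ℕ) (J h : Site → ℝ) (T : ℝ) (W Λ : Finset Site)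
    (hW : W ⊆ Λ) (P : Finset (Site × Site)) (hP : P ⊆ prs R Λ)
    (F : Finset Site → Finset Site → Finset (Site × Site) → ℝ) :
    (∑ S ∈ Λ.powerset, ∑ S' ∈ Λ.powerset, ∑ ω ∈ (prs R Λ).powerset,
      wt R J h T Λ (↑Λ)ᶜ S * wt R J h T Λ ∅ S' * bw (prs R Λ) (qe J T) ω * F S S' ω) =
    ∑ So ∈ (Λ \ W).powerset, ∑ So' ∈ (Λ \ W).powerset, ∑ ωo ∈ (prs R Λ \ P).powerset,
      rho R J h T W Λ (↑So ∪ (↑Λ)ᶜ) * rho R J h T W Λ (↑So' ∪ ∅) *
        bw (prs R Λ \ P) (qe J T) ωo *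
      ∑ ωi ∈ P.powerset, bw P (qe J T) ωi * ∑ Si ∈ W.powerset, ∑ Si' ∈ W.powerset,
        wt R J h T W (↑So ∪ (↑Λ)ᶜ) Si * wt R J h T W (↑So' ∪ ∅) Si' *
          F (So ∪ Si) (So' ∪ Si') (ωo ∪ ωi) := by
  have hd : Disjoint (Λ \ W) W := Finset.sdiff_disjoint
  have hu : Λ \ W ∪ W = Λ := Finset.sdiff_union_of_subset hW
  have hd' : Disjoint (prs R Λ \ P) P := Finset.sdiff_disjoint
  have hu' : prs R Λ \ P ∪ P = prs R Λ := Finset.sdiff_union_of_subset hP
  have p1 : ∀ f : Finset Site → ℝ, ∑ S ∈ Λ.powerset, f S =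
      ∑ So ∈ (Λ \ W).powerset, ∑ Si ∈ W.powerset, f (So ∪ Si) := by
    intro f
    have := hPS Site (Λ \ W) W hd f
    rwa [hu] at this
  have p2 : ∀ f : Finset (Site × Site) → ℝ, ∑ ω ∈ (prs R Λ).powerset, f ω =
      ∑ ωo ∈ (prs R Λ \ P).powerset, ∑ ωi ∈ P.powerset, f (ωo ∪ ωi) := by
    intro f
    have := hPS (Site × Site) (prs R Λ \ P) P hd' f
    rwa [hu'] at this
  rw [p1]
  refine Finset.sum_congr rfl fun So hSo => ?_
  -- bring the sum over `Si` inside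
  have e1 : ∀ Si ∈ W.powerset, (∑ S' ∈ Λ.powerset, ∑ ω ∈ (prs R Λ).powerset,
      wt R J h T Λ (↑Λ)ᶜ (So ∪ Si) * wt R J h T Λ ∅ S' * bw (prs R Λ) (qe J T) ω *
        F (So ∪ Si) S' ω) =
      ∑ So' ∈ (Λ \ W).powerset, ∑ ωo ∈ (prs R Λ \ P).powerset,
      rho R J h T W Λ (↑So ∪ (↑Λ)ᶜ) * rho R J h T W Λ (↑So' ∪ ∅) *
        bw (prs R Λ \ P) (qe J T) ωo *
      ∑ ωi ∈ P.powerset, bw P (qe J T) ωi * ∑ Si' ∈ W.powerset,
        wt R J h T W (↑So ∪ (↑Λ)ᶜ) Si * wt R J h T W (↑So' ∪ ∅) Si' *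
          F (So ∪ Si) (So' ∪ Si') (ωo ∪ ωi) := by
    intro Si hSi
    rw [p1]
    refine Finset.sum_congr rfl fun So' hSo' => ?_
    have e2 : ∀ Si' ∈ W.powerset, (∑ ω ∈ (prs R Λ).powerset,
        wt R J h T Λ (↑Λ)ᶜ (So ∪ Si) * wt R J h T Λ ∅ (So' ∪ Si') *
          bw (prs R Λ) (qe J T) ω * F (So ∪ Si) (So' ∪ Si') ω) =
        ∑ ωo ∈ (prs R Λ \ P).powerset,
        rho R J h T W Λ (↑So ∪ (↑Λ)ᶜ) * rho R J h T W Λ (↑So' ∪ ∅) *
          bw (prs R Λ \ P) (qe J T) ωo *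
        ∑ ωi ∈ P.powerset, bw P (qe J T) ωi * (wt R J h T W (↑So ∪ (↑Λ)ᶜ) Si *
          wt R J h T W (↑So' ∪ ∅) Si' * F (So ∪ Si) (So' ∪ Si') (ωo ∪ ωi)) := by
      intro Si' hSi'
      rw [p2]
      refine Finset.sum_congr rfl fun ωo hωo => ?_
      rw [Finset.mul_sum]
      refine Finset.sum_congr rfl fun ωi hωi => ?_
      rw [wt_split hDM R J h T W Λ hW _ So Si (Finset.mem_powerset.1 hSi),
        wt_split hDM R J h T W Λ hW _ So' Si' (Finset.mem_powerset.1 hSi'),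
        bw_union hP (Finset.mem_powerset.1 hωo) (Finset.mem_powerset.1 hωi)]
      ring
    rw [Finset.sum_congr rfl e2, Finset.sum_comm]
    refine Finset.sum_congr rfl fun ωo _ => ?_
    rw [← Finset.mul_sum, Finset.sum_comm]
    congr 1
    refine Finset.sum_congr rfl fun ωi _ => ?_
    rw [Finset.mul_sum]
  rw [Finset.sum_congr rfl e1, Finset.sum_comm]
  refine Finset.sum_congr rfl fun So' _ => ?_
  rw [Finset.sum_comm]
  refine Finset.sum_congr rfl fun ωo _ => ?_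
  rw [← Finset.mul_sum, Finset.sum_comm]
  congr 1
  refine Finset.sum_congr rfl fun ωi _ => ?_
  rw [Finset.mul_sum]

theorem pf_DOM (hMON : T_MON) (hPS : T_PS) (hDM : T_DM) : D_DOM := by
  intro R J hJ h T hT W Λ hWΛ P hPW Φ hΦ0 hΦ1 G hG0 hG1
  have hPΛ : P ⊆ prs R Λ := hPW.trans (prs_mono hWΛ)
  set Z1 := Zf R J h T Λ (↑Λ)ᶜ with hZ1
  set Z2 := Zf R J h T Λ ∅ with hZ2
  set z1 := Zf R J h T W (↑W)ᶜ with hz1
  set z2 := Zf R J h T W ∅ with hz2
  have Z1p : 0 < Z1 := zf_pos R J h T Λ _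
  have Z2p : 0 < Z2 := zf_pos R J h T Λ _
  have z1p : 0 < z1 := zf_pos R J h T W _
  have z2p : 0 < z2 := zf_pos R J h T W _
  -- the inner expectation
  set K : ℝ := ∑ ωi ∈ P.powerset, bw P (qe J T) ωi * ∑ Si ∈ W.powerset, ∑ Si' ∈ W.powerset,
    wt R J h T W (↑W)ᶜ Si * wt R J h T W ∅ Si' * Φ (Dq W Si Si') ωi with hK
  have hQd : Qd R J h T W (fun D ω => Φ D (ω ∩ P)) = K / (z1 * z2) := by
    unfold Qd Qe Qg
    rw [← hz1, ← hz2]
    congr 1
    have hd' : Disjoint (prs R W \ P) P := Finset.sdiff_disjoint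
    have hu' : prs R W \ P ∪ P = prs R W := Finset.sdiff_union_of_subset hPW
    have e1 : ∀ S S' : Finset Site, ∑ ω ∈ (prs R W).powerset,
        wt R J h T W (↑W)ᶜ S * wt R J h T W ∅ S' * bw (prs R W) (qe J T) ω *
          Φ (Dq W S S') (ω ∩ P) =
        ∑ ωi ∈ P.powerset, bw P (qe J T) ωi * (wt R J h T W (↑W)ᶜ S * wt R J h T W ∅ S' *
          Φ (Dq W S S') ωi) := by
      intro S S'
      have h1 := hPS (Site × Site) (prs R W \ P) P hd' (fun ω =>
        wt R J h T W (↑W)ᶜ S * wt R J h T W ∅ S' * bw (prs R W) (qe J T) ω *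
          Φ (Dq W S S') (ω ∩ P))
      rw [hu'] at h1
      rw [h1, Finset.sum_comm]
      refine Finset.sum_congr rfl fun ωi hωi => ?_
      have hωi' := Finset.mem_powerset.1 hωi
      have e2 : ∀ ωo ∈ (prs R W \ P).powerset,
          wt R J h T W (↑W)ᶜ S * wt R J h T W ∅ S' * bw (prs R W) (qe J T) (ωo ∪ ωi) *
          Φ (Dq W S S') ((ωo ∪ ωi) ∩ P) = bw (prs R W \ P) (qe J T) ωo *
          (bw P (qe J T) ωi * (wt R J h T W (↑W)ᶜ S * wt R J h T W ∅ S' *
          Φ (Dq W S S') ωi)) := by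
        intro ωo hωo
        have hωo' := Finset.mem_powerset.1 hωo
        rw [bw_union hPW hωo' hωi']
        have e3 : (ωo ∪ ωi) ∩ P = ωi := by
          ext e
          simp only [Finset.mem_inter, Finset.mem_union]
          constructor
          · rintro ⟨a | a, b⟩
            · exact absurd b (Finset.mem_sdiff.1 (hωo' a)).2
            · exact a
          · intro a
            exact ⟨Or.inr a, hωi' a⟩
        rw [e3]
        ring
      rw [Finset.sum_congr rfl e2, ← Finset.sum_mul, bw_sum, one_mul]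
    have e4 : ∀ S ∈ W.powerset, (∑ S' ∈ W.powerset, ∑ ω ∈ (prs R W).powerset,
        wt R J h T W (↑W)ᶜ S * wt R J h T W ∅ S' * bw (prs R W) (qe J T) ω *
          Φ (Dq W S S') (ω ∩ P)) =
        ∑ ωi ∈ P.powerset, bw P (qe J T) ωi * ∑ S' ∈ W.powerset,
          wt R J h T W (↑W)ᶜ S * wt R J h T W ∅ S' * Φ (Dq W S S') ωi := by
      intro S _
      rw [Finset.sum_congr rfl (fun S' _ => e1 S S'), Finset.sum_comm]
      refine Finset.sum_congr rfl fun ωi _ => ?_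
      rw [Finset.mul_sum]
    rw [Finset.sum_congr rfl e4, Finset.sum_comm, hK]
    refine Finset.sum_congr rfl fun ωi _ => ?_
    rw [Finset.mul_sum]
  -- the numerators
  set c : Finset Site → Finset Site → Finset (Site × Site) → ℝ := fun So So' ωo =>
    rho R J h T W Λ (↑So ∪ (↑Λ)ᶜ) * rho R J h T W Λ (↑So' ∪ ∅) *
      bw (prs R Λ \ P) (qe J T) ωo with hc
  have hc0 : ∀ So So' ωo, 0 ≤ c So So' ωo := by
    intro So So' ωo
    rw [hc]
    unfold rho
    exact mul_nonneg (mul_nonneg (Real.exp_pos _).le (Real.exp_pos _).le) (bw_nonneg hJ hT _ _)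
  have hGin : ∀ So So' ωo, So ⊆ Λ \ W → So' ⊆ Λ \ W → ωo ⊆ prs R Λ \ P →
      ∀ Si Si' ωi, Si ⊆ W → Si' ⊆ W → ωi ⊆ P →
      G (So ∪ Si) (So' ∪ Si') (ωo ∪ ωi) = G So So' ωo := by
    intro So So' ωo h1 h2 h3 Si Si' ωi h4 h5 h6
    rw [hG1 (So ∪ Si) (So' ∪ Si') (ωo ∪ ωi), hG1 So So' ωo]
    have e1 : ∀ {α : Type} [DecidableEq α] {X Y A B : Finset α}, A ⊆ Y → (X ∪ A) \ Y = X \ Y := by
      intro α _ X Y A B hA
      ext e
      simp only [Finset.mem_sdiff, Finset.mem_union]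
      constructor
      · rintro ⟨a | a, b⟩
        · exact ⟨a, b⟩
        · exact absurd (hA a) b
      · rintro ⟨a, b⟩
        exact ⟨Or.inl a, b⟩
    rw [e1 (B := Si) h4, e1 (B := Si') h5, e1 (B := ωi) h6]
  have hN1 := num_split hPS hDM R J h T W Λ hWΛ P hPΛ
    (fun S S' ω => Φ (Dq Λ S S') (ω ∩ P) * G S S' ω)
  have hN2 := num_split hPS hDM R J h T W Λ hWΛ P hPΛ G
  -- the inner sum for `G`
  have hI2 : ∀ So ∈ (Λ \ W).powerset, ∀ So' ∈ (Λ \ W).powerset,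
      ∀ ωo ∈ (prs R Λ \ P).powerset,
      ∑ ωi ∈ P.powerset, bw P (qe J T) ωi * ∑ Si ∈ W.powerset, ∑ Si' ∈ W.powerset,
        wt R J h T W (↑So ∪ (↑Λ)ᶜ) Si * wt R J h T W (↑So' ∪ ∅) Si' *
          G (So ∪ Si) (So' ∪ Si') (ωo ∪ ωi) =
      G So So' ωo * (Zf R J h T W (↑So ∪ (↑Λ)ᶜ) * Zf R J h T W (↑So' ∪ ∅)) := by
    intro So hSo So' hSo' ωo hωo
    rw [Finset.mem_powerset] at hSo hSo' hωo
    have e1 : ∀ ωi ∈ P.powerset, bw P (qe J T) ωi * ∑ Si ∈ W.powerset, ∑ Si' ∈ W.powerset,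
        wt R J h T W (↑So ∪ (↑Λ)ᶜ) Si * wt R J h T W (↑So' ∪ ∅) Si' *
          G (So ∪ Si) (So' ∪ Si') (ωo ∪ ωi) = bw P (qe J T) ωi *
        (G So So' ωo * (Zf R J h T W (↑So ∪ (↑Λ)ᶜ) * Zf R J h T W (↑So' ∪ ∅))) := by
      intro ωi hωi
      congr 1
      have e2 : G So So' ωo * (Zf R J h T W (↑So ∪ (↑Λ)ᶜ) * Zf R J h T W (↑So' ∪ ∅)) =
          ∑ Si ∈ W.powerset, ∑ Si' ∈ W.powerset,
          wt R J h T W (↑So ∪ (↑Λ)ᶜ) Si * wt R J h T W (↑So' ∪ ∅) Si' * G So So' ωo := by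
        unfold Zf
        rw [Finset.sum_mul_sum, Finset.mul_sum]
        refine Finset.sum_congr rfl fun Si _ => ?_
        rw [Finset.mul_sum]
        exact Finset.sum_congr rfl fun Si' _ => by ring
      rw [e2]
      refine Finset.sum_congr rfl fun Si hSi => Finset.sum_congr rfl fun Si' hSi' => ?_
      rw [hGin So So' ωo hSo hSo' hωo Si Si' ωi (Finset.mem_powerset.1 hSi)
        (Finset.mem_powerset.1 hSi') (Finset.mem_powerset.1 hωi)]
    rw [Finset.sum_congr rfl e1, ← Finset.sum_mul, bw_sum, one_mul]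
  -- the inner sum for the product
  have hI1 : ∀ So ∈ (Λ \ W).powerset, ∀ So' ∈ (Λ \ W).powerset,
      ∀ ωo ∈ (prs R Λ \ P).powerset,
      (∑ ωi ∈ P.powerset, bw P (qe J T) ωi * ∑ Si ∈ W.powerset, ∑ Si' ∈ W.powerset,
        wt R J h T W (↑So ∪ (↑Λ)ᶜ) Si * wt R J h T W (↑So' ∪ ∅) Si' *
          (Φ (Dq Λ (So ∪ Si) (So' ∪ Si')) ((ωo ∪ ωi) ∩ P) *
            G (So ∪ Si) (So' ∪ Si') (ωo ∪ ωi))) * (z1 * z2) ≤
      G So So' ωo * (Zf R J h T W (↑So ∪ (↑Λ)ᶜ) * Zf R J h T W (↑So' ∪ ∅)) * K := by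
    intro So hSo So' hSo' ωo hωo
    rw [Finset.mem_powerset] at hSo hSo' hωo
    rw [hK, Finset.sum_mul, Finset.mul_sum]
    refine Finset.sum_le_sum fun ωi hωi => ?_
    have hωi' := Finset.mem_powerset.1 hωi
    have hcap : (ωo ∪ ωi) ∩ P = ωi := by
      ext e
      simp only [Finset.mem_inter, Finset.mem_union]
      constructor
      · rintro ⟨a | a, b⟩
        · exact absurd b (Finset.mem_sdiff.1 (hωo a)).2
        · exact a
      · intro a
        exact ⟨Or.inr a, hωi' a⟩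
    have g0 : 0 ≤ G So So' ωo := hG0 So So' ωo
    have b0 : 0 ≤ bw P (qe J T) ωi := bw_nonneg hJ hT _ _
    -- bound by the function of the inner configurations
    have l1 : ∑ Si ∈ W.powerset, ∑ Si' ∈ W.powerset,
        wt R J h T W (↑So ∪ (↑Λ)ᶜ) Si * wt R J h T W (↑So' ∪ ∅) Si' *
          (Φ (Dq Λ (So ∪ Si) (So' ∪ Si')) ((ωo ∪ ωi) ∩ P) *
            G (So ∪ Si) (So' ∪ Si') (ωo ∪ ωi)) ≤
        G So So' ωo * ∑ Si ∈ W.powerset, ∑ Si' ∈ W.powerset,
        wt R J h T W (↑So ∪ (↑Λ)ᶜ) Si * wt R J h T W (↑So' ∪ ∅) Si' * Φ (Dq W Si Si') ωi := by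
      rw [Finset.mul_sum]
      refine Finset.sum_le_sum fun Si hSi => ?_
      rw [Finset.mul_sum]
      refine Finset.sum_le_sum fun Si' hSi' => ?_
      rw [Finset.mem_powerset] at hSi hSi'
      rw [hGin So So' ωo hSo hSo' hωo Si Si' ωi hSi hSi' hωi', hcap]
      have d1 : Dq Λ (So ∪ Si) (So' ∪ Si') ⊆ Dq W Si Si' := by
        intro z hz
        unfold Dq at hz ⊢
        rw [Set.mem_sdiff, Set.mem_union] at hz ⊢
        rw [Finset.coe_union, Finset.coe_union] at hz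
        refine ⟨?_, fun hz' => hz.2 (Or.inr hz')⟩
        rcases hz.1 with (h1 | h1) | h1
        · right
          intro h2
          exact (Finset.mem_sdiff.1 (hSo h1)).2 h2
        · exact Or.inl h1
        · right
          intro h2
          exact h1 (hWΛ h2)
      have d2 := hΦ1 _ _ ωi d1
      have w0 : 0 ≤ wt R J h T W (↑So ∪ (↑Λ)ᶜ) Si * wt R J h T W (↑So' ∪ ∅) Si' :=
        mul_nonneg (wt_pos _ _ _ _ _ _ _).le (wt_pos _ _ _ _ _ _ _).le
      have d3 := mul_le_mul_of_nonneg_left (mul_le_mul_of_nonneg_right d2 g0) w0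
      refine d3.trans (le_of_eq ?_)
      ring
    have l2 := mon2 hMON R J hJ h T hT W (↑So ∪ (↑Λ)ᶜ) (↑W)ᶜ (↑So' ∪ ∅) ∅ ?_ (Set.empty_subset _)
      ?_ ?_ ?_ (Set.empty_disjoint _) (fun S S' => Φ (Dq W S S') ωi) ?_ ?_
    · rw [← hz1, ← hz2] at l2
      have m1 := mul_le_mul_of_nonneg_right (mul_le_mul_of_nonneg_left l1 b0)
        (mul_pos z1p z2p).le
      refine m1.trans ?_
      have m2 := mul_le_mul_of_nonneg_left l2 (mul_nonneg b0 g0)
      refine le_trans (le_of_eq ?_) (m2.trans (le_of_eq ?_))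
      · ring
      · ring
    · intro z hz
      rcases hz with hz | hz
      · exact fun h2 => (Finset.mem_sdiff.1 (hSo hz)).2 h2
      · exact fun h2 => hz (hWΛ h2)
    · rw [Set.disjoint_left]
      intro z hz h2
      rcases hz with hz | hz
      · exact (Finset.mem_sdiff.1 (hSo hz)).2 h2
      · exact hz (hWΛ h2)
    · exact disjoint_compl_left
    · rw [Set.disjoint_left]
      intro z hz h2
      rcases hz with hz | hz
      · exact (Finset.mem_sdiff.1 (hSo' hz)).2 h2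
      · exact hz
    · intro S S' V h1 h2
      refine hΦ1 _ _ ωi ?_
      unfold Dq
      intro z hz
      rw [Set.mem_sdiff, Set.mem_union] at hz ⊢
      exact ⟨hz.1.imp (fun a => h1 a) id, hz.2⟩
    · intro V S S' h1 h2
      refine hΦ1 _ _ ωi ?_
      unfold Dq
      intro z hz
      rw [Set.mem_sdiff] at hz ⊢
      exact ⟨hz.1, fun a => hz.2 (h1 a)⟩
  have hmain : (∑ S ∈ Λ.powerset, ∑ S' ∈ Λ.powerset, ∑ ω ∈ (prs R Λ).powerset,
      wt R J h T Λ (↑Λ)ᶜ S * wt R J h T Λ ∅ S' * bw (prs R Λ) (qe J T) ω *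
        (Φ (Dq Λ S S') (ω ∩ P) * G S S' ω)) * (z1 * z2) ≤
      (∑ S ∈ Λ.powerset, ∑ S' ∈ Λ.powerset, ∑ ω ∈ (prs R Λ).powerset,
      wt R J h T Λ (↑Λ)ᶜ S * wt R J h T Λ ∅ S' * bw (prs R Λ) (qe J T) ω * G S S' ω) * K := by
    rw [hN1, hN2, Finset.sum_mul, Finset.sum_mul]
    refine Finset.sum_le_sum fun So hSo => ?_
    rw [Finset.sum_mul, Finset.sum_mul]
    refine Finset.sum_le_sum fun So' hSo' => ?_
    rw [Finset.sum_mul, Finset.sum_mul]
    refine Finset.sum_le_sum fun ωo hωo => ?_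
    rw [hI2 So hSo So' hSo' ωo hωo]
    have m4 := mul_le_mul_of_nonneg_left (hI1 So hSo So' hSo' ωo hωo) (hc0 So So' ωo)
    rw [hc] at m4
    simp only at m4
    rw [← mul_assoc] at m4
    refine m4.trans (le_of_eq ?_)
    ring
  rw [hQd]
  unfold Qe Qg
  rw [← hZ1, ← hZ2]
  rw [div_mul_div_comm, div_le_div_iff₀ (mul_pos Z1p Z2p)
    (mul_pos (mul_pos z1p z2p) (mul_pos Z1p Z2p))]
  have m3 := mul_le_mul_of_nonneg_right hmain (mul_pos Z1p Z2p).le
  refine le_trans (le_of_eq ?_) (m3.trans (le_of_eq ?_))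
  · ring
  · ring

theorem pf_SUBD (hDOM : D_DOM) (hBAS : D_BAS) : D_SUB := by
  intro R J hJ h T hT W Λ hWΛ A hA1 hA2
  obtain ⟨b1, -, -, b4, -⟩ := hBAS R J hJ h T hT Λ
  obtain ⟨-, -, -, c4, -⟩ := hBAS R J hJ h T hT W
  have hi : ∀ p q : Prop, (p → q) → ind p ≤ ind q := by
    intro p q hpq
    unfold ind
    by_cases hp : p
    · rw [if_pos hp, if_pos (hpq hp)]
    · rw [if_neg hp]
      split_ifs <;> norm_num
  have hi0 : ∀ p : Prop, 0 ≤ ind p := by
    intro p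
    unfold ind
    split_ifs <;> norm_num
  have h1 := hDOM R J hJ h T hT W Λ hWΛ (prs R W) (Finset.Subset.refl _)
    (fun D ω => ind (A D ω)) (fun D ω => hi0 _) (fun D D' ω hD => hi _ _ (hA1 D D' ω hD))
    (fun _ _ _ => 1) (fun _ _ _ => zero_le_one) (fun _ _ _ => rfl)
  rw [b1 1, mul_one] at h1
  have h2 : QP R J h T Λ A ≤ Qe R J h T Λ (fun S S' ω =>
      ind (A (Dq Λ S S') (ω ∩ prs R W)) * 1) := by
    unfold QP Qd
    refine b4 _ _ ?_
    intro S S' ω _ _ _ _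
    rw [mul_one]
    exact hi _ _ (hA2 _ _)
  have h3 : Qd R J h T W (fun D ω => ind (A D (ω ∩ prs R W))) ≤ QP R J h T W A := by
    unfold QP Qd
    refine c4 _ _ ?_
    intro S S' ω _ _ hω _
    change ind (A (Dq W S S') (ω ∩ prs R W)) ≤ ind (A (Dq W S S') ω)
    rw [Finset.inter_eq_left.2 hω]
  exact h2.trans (h1.trans h3)

theorem pf_PRD (hDOM : D_DOM) (hBAS : D_BAS) (hQP : D_QP) : D_PRD := by
  intro R J hJ h T hT Λ n
  have hi : ∀ p q : Prop, (p → q) → ind p ≤ ind q := by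
    intro p q hpq
    unfold ind
    by_cases hp : p
    · rw [if_pos hp, if_pos (hpq hp)]
    · rw [if_neg hp]
      split_ifs <;> norm_num
  have hi0 : ∀ p : Prop, 0 ≤ ind p := by
    intro p
    unfold ind
    split_ifs <;> norm_num
  have hi1 : ∀ p : Prop, ind p ≤ 1 := by
    intro p
    unfold ind
    split_ifs <;> norm_num
  induction n with
  | zero =>
    intro W _ _ A _ _ _
    rw [Finset.univ_eq_empty, Finset.prod_empty]
    exact ((hQP R J hJ h T hT Λ).1 _).2.1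
  | succ n ih =>
    intro W hW hd A hA1 hA2 hA3
    rw [Fin.prod_univ_succ]
    obtain ⟨-, -, -, b4, -⟩ := hBAS R J hJ h T hT Λ
    obtain ⟨-, -, -, c4, -⟩ := hBAS R J hJ h T hT (W 0)
    set P : Finset (Site × Site) := prs R (W 0) ∩ (W 0 ×ˢ W 0) with hP
    have hPW : P ⊆ prs R (W 0) := Finset.inter_subset_left
    have hPin : ∀ (Λ' : Finset Site) (ω : Finset (Site × Site)), ω ⊆ prs R Λ' →
        ω ∩ P = ω ∩ (W 0 ×ˢ W 0) := by
      intro Λ' ω hω
      ext ⟨a, b⟩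
      rw [hP, Finset.mem_inter, Finset.mem_inter, Finset.mem_inter]
      constructor
      · rintro ⟨h1, -, h3⟩
        exact ⟨h1, h3⟩
      · rintro ⟨h1, h3⟩
        refine ⟨h1, mem_prs_iff.2 ⟨Or.inl (Finset.mem_product.1 h3).1, ?_⟩, h3⟩
        exact (mem_prs_iff.1 (hω h1)).2
    have hAiff : ∀ i D ω, A i D ω ↔ A i (D ∩ ↑(W i)) (ω ∩ (W i ×ˢ W i)) := fun i D ω =>
      ⟨hA2 i D ω, fun h => hA3 i D ω (hA1 i _ _ _ Set.inter_subset_left h)⟩
    have h1 := hDOM R J hJ h T hT (W 0) Λ (hW 0) P hPW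
      (fun D ω => ind (A 0 D ω)) (fun D ω => hi0 _) (fun D D' ω hD => hi _ _ (hA1 0 D D' ω hD))
      (fun S S' ω => ind (∀ i : Fin n, A i.succ (Dq Λ S S') ω)) (fun S S' ω => hi0 _) ?_
    · have h2 : QP R J h T Λ (fun D ω => ∀ i, A i D ω) ≤ Qe R J h T Λ (fun S S' ω =>
          ind (A 0 (Dq Λ S S') (ω ∩ P)) * ind (∀ i : Fin n, A i.succ (Dq Λ S S') ω)) := by
        unfold QP Qd
        refine b4 _ _ ?_
        intro S S' ω _ _ hω _
        change ind (∀ i, A i (Dq Λ S S') ω) ≤ ind (A 0 (Dq Λ S S') (ω ∩ P)) *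
          ind (∀ i : Fin n, A i.succ (Dq Λ S S') ω)
        by_cases hall : ∀ i, A i (Dq Λ S S') ω
        · have e1 : A 0 (Dq Λ S S') (ω ∩ P) := by
            rw [hPin Λ ω hω]
            exact hA1 0 _ _ _ Set.inter_subset_left (hA2 0 _ _ (hall 0))
          have e2 : ∀ i : Fin n, A i.succ (Dq Λ S S') ω := fun i => hall i.succ
          unfold ind
          rw [if_pos hall, if_pos e1, if_pos e2]
          norm_num
        · have e3 : ind (∀ i, A i (Dq Λ S S') ω) = 0 := by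
            unfold ind
            rw [if_neg hall]
          rw [e3]
          exact mul_nonneg (hi0 _) (hi0 _)
      have h3 : Qd R J h T (W 0) (fun D ω => ind (A 0 D (ω ∩ P))) ≤ QP R J h T (W 0) (A 0) := by
        unfold QP Qd
        refine c4 _ _ ?_
        intro S S' ω _ _ hω _
        change ind (A 0 (Dq (W 0) S S') (ω ∩ P)) ≤ ind (A 0 (Dq (W 0) S S') ω)
        refine hi _ _ ?_
        rw [hPin (W 0) ω hω]
        exact hA3 0 _ _
      have h4 := ih (fun i => W i.succ) (fun i => hW i.succ)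
        (fun i j hij => hd i.succ j.succ (fun h => hij (Fin.succ_injective _ h)))
        (fun i => A i.succ) (fun i => hA1 i.succ) (fun i => hA2 i.succ) (fun i => hA3 i.succ)
      have h5 : Qe R J h T Λ (fun S S' ω => ind (∀ i : Fin n, A i.succ (Dq Λ S S') ω)) ≤
          ∏ i : Fin n, QP R J h T (W i.succ) (A i.succ) := h4
      have q0 := ((hQP R J hJ h T hT (W 0)).1 (A 0)).1
      have q1 : 0 ≤ Qe R J h T Λ (fun S S' ω => ind (∀ i : Fin n, A i.succ (Dq Λ S S') ω)) :=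
        ((hQP R J hJ h T hT Λ).1 (fun D ω => ∀ i : Fin n, A i.succ D ω)).1
      exact h2.trans (h1.trans ((mul_le_mul_of_nonneg_right h3 q1).trans
        (mul_le_mul_of_nonneg_left h5 q0)))
    · intro S S' ω
      have e : ∀ i : Fin n, A i.succ (Dq Λ S S') ω ↔
          A i.succ (Dq Λ (S \ W 0) (S' \ W 0)) (ω \ P) := by
        intro i
        have hdi : Disjoint (W i.succ) (W 0) := hd _ _ (Fin.succ_ne_zero i)
        rw [hAiff i.succ (Dq Λ S S') ω, hAiff i.succ (Dq Λ (S \ W 0) (S' \ W 0)) (ω \ P)]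
        have e1 : Dq Λ S S' ∩ ↑(W i.succ) = Dq Λ (S \ W 0) (S' \ W 0) ∩ ↑(W i.succ) := by
          ext z
          unfold Dq
          simp only [Set.mem_inter_iff, Set.mem_sdiff, Set.mem_union, Finset.mem_coe,
            Finset.mem_sdiff, Set.mem_compl_iff]
          constructor
          · rintro ⟨⟨h1, h2⟩, h3⟩
            have h4 : z ∉ W 0 := Finset.disjoint_left.1 hdi h3
            exact ⟨⟨h1.imp (fun a => ⟨a, h4⟩) id, fun a => h2 a.1⟩, h3⟩
          · rintro ⟨⟨h1, h2⟩, h3⟩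
            have h4 : z ∉ W 0 := Finset.disjoint_left.1 hdi h3
            exact ⟨⟨h1.imp (fun a => a.1) id, fun a => h2 ⟨a, h4⟩⟩, h3⟩
        have e2 : ω ∩ (W i.succ ×ˢ W i.succ) = (ω \ P) ∩ (W i.succ ×ˢ W i.succ) := by
          ext z
          simp only [Finset.mem_inter, Finset.mem_sdiff, Finset.mem_product]
          constructor
          · rintro ⟨h1, h2, h3⟩
            refine ⟨⟨h1, ?_⟩, h2, h3⟩
            intro h4
            rw [hP, Finset.mem_inter, Finset.mem_product] at h4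
            exact Finset.disjoint_left.1 hdi h2 h4.2.1
          · rintro ⟨⟨h1, -⟩, h2⟩
            exact ⟨h1, h2⟩
        rw [e1, e2]
      have e' : (∀ i : Fin n, A i.succ (Dq Λ S S') ω) =
          (∀ i : Fin n, A i.succ (Dq Λ (S \ W 0) (S' \ W 0)) (ω \ P)) :=
        propext (forall_congr' e)
      exact congrArg ind e'

end Pool.Agent.H50.RFT
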